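import Mathlib
import Pool.Agent.H.MP_c9c571_nt.A

open Finset

namespace Pool.Agent.H.MP_40e425_nt

open Pool.Agent.H.MP_c9c571_nt Pool.Agent.H.MP_74870a_nt

variable {A : Type*} [CommRing A]

def Q3 (e : A) (F : ℤ → A) : Prop := ∃ a b c : A, ∀ t : ℤ, F t = a + t * e * b + t ^ 2 * e ^ 2 * c

theorem Q3.const (e a : A) : Q3 e fun _ => a := ⟨a, 0, 0, fun t => by ring⟩

theorem Q3.add {e : A} {F G : ℤ → A} (h : Q3 e F) (k : Q3 e G) : Q3 e fun t => F t + G t := by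
  obtain ⟨a, b, c, h⟩ := h
  obtain ⟨a', b', c', k⟩ := k
  exact ⟨a + a', b + b', c + c', fun t => by simp only [h, k]; ring⟩

theorem Q3.mul {e : A} (he : e ^ 3 = 0) {F G : ℤ → A} (h : Q3 e F) (k : Q3 e G) :
    Q3 e fun t => F t * G t := by
  obtain ⟨a, b, c, h⟩ := h
  obtain ⟨a', b', c', k⟩ := k
  refine ⟨a * a', a * b' + b * a', a * c' + b * b' + c * a', fun t => ?_⟩
  simp only [h, k]
  linear_combination ((t : A) ^ 3 * (b * c' + c * b') + t ^ 4 * e * c * c') * he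

theorem Q3.sub {e : A} (he : e ^ 3 = 0) {F G : ℤ → A} (h : Q3 e F) (k : Q3 e G) :
    Q3 e fun t => F t - G t := by
  have := h.add ((Q3.const e (-1)).mul he k)
  simpa [sub_eq_add_neg] using this

theorem Q3.pow {e : A} (he : e ^ 3 = 0) {F : ℤ → A} (h : Q3 e F) (n : ℕ) :
    Q3 e fun t => F t ^ n := by
  induction n with
  | zero => simpa using Q3.const e 1
  | succ n ih => simpa [pow_succ] using ih.mul he h

theorem Q3.sum {e : A} (n : ℕ) {F : ℕ → ℤ → A} (h : ∀ i, i < n → Q3 e (F i)) :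
    Q3 e fun t => ∑ i ∈ range n, F i t := by
  induction n with
  | zero => simpa using Q3.const e 0
  | succ n ih => simpa [sum_range_succ] using (ih fun i hi => h i (by omega)).add (h n (by omega))

theorem Q3.prod {e : A} (he : e ^ 3 = 0) (n : ℕ) {F : ℕ → ℤ → A} (h : ∀ i, i < n → Q3 e (F i)) :
    Q3 e fun t => ∏ i ∈ range n, F i t := by
  induction n with
  | zero => simpa using Q3.const e 1
  | succ n ih => simpa [prod_range_succ] using (ih fun i hi => h i (by omega)).mul he (h n (by omega))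

theorem inv_uniq {a b : A} (h : a * b = 1) : Ring.inverse a = b := by
  have := Ring.inverse_mul_cancel a (IsUnit.of_mul_eq_one _ h)
  linear_combination b * this - Ring.inverse a * h

theorem Q3.inv {e : A} (he : e ^ 3 = 0) {F : ℤ → A} (h : Q3 e F) (hu : IsUnit (F 0)) :
    (∀ t, IsUnit (F t)) ∧ Q3 e fun t => Ring.inverse (F t) := by
  obtain ⟨a, b, c, h⟩ := h
  rw [h 0] at hu
  simp only [Int.cast_zero, zero_mul, add_zero, ne_eq, OfNat.ofNat_ne_zero, not_false_eq_true,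
    zero_pow] at hu
  obtain ⟨w, hw⟩ := hu.exists_right_inv
  have key : ∀ t : ℤ, F t * (w + t * e * (-(w ^ 2 * b)) + t ^ 2 * e ^ 2 * (w ^ 3 * b ^ 2 - w ^ 2 * c))
      = 1 := fun t => by
    rw [h]
    linear_combination (1 - t * e * w * b + t ^ 2 * e ^ 2 * (w ^ 2 * b ^ 2 - w * c)) * hw
      + ((t : A) ^ 3 * (b * (w ^ 3 * b ^ 2 - w ^ 2 * c) - c * w ^ 2 * b)
        + t ^ 4 * e * c * (w ^ 3 * b ^ 2 - w ^ 2 * c)) * he
  exact ⟨fun t => IsUnit.of_mul_eq_one _ (key t), _, _, _, fun t => inv_uniq (key t)⟩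

theorem Q3.zpow (Y : Aˣ) (hf : A) (hh : hf * 2 = 1) (he : ((Y : A) - 1) ^ 3 = 0) :
    Q3 ((Y : A) - 1) fun t => ((Y ^ t : Aˣ) : A) := by
  set e := (Y : A) - 1 with hedef
  have hY : (Y : A) = 1 + e := by rw [hedef]; ring
  refine ⟨1, 1 - e * hf, hf, fun t => ?_⟩
  induction t using Int.induction_on with
  | zero => simp
  | succ i ih =>
    simp only at ih ⊢
    rw [zpow_add_one, Units.val_mul, ih, hY]; push_cast
    linear_combination (-(i : A) * e ^ 2) * hh + (hf * (i ^ 2 - i)) * he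
  | pred i ih =>
    simp only at ih ⊢
    apply (Y.isUnit.mul_left_inj).1
    rw [← Units.val_mul, ← zpow_add_one, sub_add_cancel, ih, hY]; push_cast
    linear_combination (-((i : A) + 1) * e ^ 2) * hh - (hf * ((i + 1) ^ 2 + (i + 1))) * he

noncomputable def V (z Y : A) (k : ℕ) : A :=
  ∏ j ∈ range k, (1 - Y * z ^ (2 * j + 1)) * Ring.inverse (1 - Y * z ^ (2 * j + 1 + 1))

theorem V_succ (z Y : A) (k : ℕ) : V z Y (k + 1)
    = V z Y k * ((1 - Y * z ^ (2 * k + 1)) * Ring.inverse (1 - Y * z ^ (2 * k + 1 + 1))) :=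
  prod_range_succ _ _

theorem V_refl {z Y Y' : A} {n s : ℕ} (hn : n = 2 * s + 1) (h : Y * Y' * z ^ n = 1)
    (hu : ∀ i, 0 < i → i < n → IsUnit (1 - Y * z ^ i))
    (hu' : ∀ i, 0 < i → i < n → IsUnit (1 - Y' * z ^ i)) (k d : ℕ) (hkd : k + d = s) :
    V z Y' d * V z Y s * z ^ d = V z Y k := by
  induction d generalizing k with
  | zero => rw [← hkd]; simp [V]
  | succ d ih =>
    have h1 := ih (k + 1) (by omega)
    have a1 := Ring.mul_inverse_cancel _ (hu (2 * k + 1 + 1) (by omega) (by omega))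
    have a2 := Ring.mul_inverse_cancel _ (hu' (2 * d + 1 + 1) (by omega) (by omega))
    have a3 : (Y * z ^ (2 * k + 1)) * (Y' * z ^ (2 * d + 1)) * z = 1 := by
      rw [← h, show n = (2 * k + 1) + (2 * d + 1) + 1 by omega]; ring
    rw [V_succ] at h1 ⊢
    generalize Ring.inverse (1 - Y * z ^ (2 * k + 1 + 1)) = i1 at a1 h1
    generalize Ring.inverse (1 - Y' * z ^ (2 * d + 1 + 1)) = i2 at a2
    rw [pow_succ z (2 * k + 1), ← mul_assoc] at a1
    rw [pow_succ z (2 * d + 1), ← mul_assoc] at a2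
    generalize Y * z ^ (2 * k + 1) = u at a1 a3 h1
    generalize Y' * z ^ (2 * d + 1) = w at a2 a3
    linear_combination ((1 - w) * i2 * z) * h1 + V z Y k * ((1 - w * z) * i2 * a1 + a2
      + i1 * i2 * (1 - z) * a3)

theorem V_Q {e z : A} (he : e ^ 3 = 0) {Y : ℤ → A} (hY : Q3 e Y) (h0 : Y 0 = 1) (n k : ℕ)
    (hk : 2 * k < n) (hu : ∀ i, 0 < i → i < n → IsUnit (1 - z ^ i)) :
    (∀ t i, 0 < i → i < n → IsUnit (1 - Y t * z ^ i)) ∧ Q3 e fun t => V z (Y t) k := by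
  have h1 : ∀ i, Q3 e fun t => 1 - Y t * z ^ i := fun i =>
    (Q3.const e 1).sub he (hY.mul he (Q3.const e _))
  have h2 := fun i h3 h4 => (h1 i).inv he (by rw [h0, one_mul]; exact hu i h3 h4)
  exact ⟨fun t i h3 h4 => (h2 i h3 h4).1 t,
    Q3.prod he k fun j hj => (h1 _).mul he (h2 _ (by omega) (by omega)).2⟩

theorem alg {e hf : A} (he : e ^ 3 = 0) (hh : hf * 2 = 1) {N ρ : ℤ → A} (hN : Q3 e N) (hρ : Q3 e ρ)
    (h1 : ∀ t, N (-1 - t) * ρ t = -N t) (h2 : ρ (-1) * ρ 0 = 1) (h3 : e ∣ ρ 0 - 1)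
    (B : ℕ → A) (hB0 : B 0 = 1) (hB : ∀ r : ℕ, B (r + 1) * ρ (2 * r + 1) = B r * ρ (2 * r))
    (r : ℕ) (w : A) : e ∣ N 0 ∧ B r * (1 + e ^ 2 * w) * N (2 * r) = (4 * r + 1) * N 0 := by
  obtain ⟨n0, n1, n2, hN⟩ := hN
  obtain ⟨a, b, c, hρ⟩ := hρ
  obtain ⟨a', ha⟩ := h3
  have t0 := h1 0
  have t1 := h1 1
  simp only [hN, hρ] at t0 t1 h2 ha hB ⊢
  push_cast at t0 t1 h2 ha hB ⊢
  obtain rfl : a = 1 + e * a' := by linear_combination ha
  obtain ⟨m0, rfl⟩ : ∃ m0, n0 = e * m0 :=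
    ⟨hf * (n1 - e * n2 - a' * (n0 - e * n1 + e ^ 2 * n2)), by linear_combination hf * t0 - n0 * hh⟩
  have hBr : ∀ r : ℕ, ∃ β, B r = 1 - r * e * b + e ^ 2 * β := fun r => by
    induction r with
    | zero => exact ⟨0, by simp [hB0]⟩
    | succ r ih =>
      obtain ⟨β, hβ⟩ := ih
      have h4 := hB r
      rw [hβ] at h4
      generalize B (r + 1) = X at h4
      set u := a' + (2 * r + 1) * b + (2 * r + 1) ^ 2 * e * c with hu
      set u' := a' + (2 * r) * b + (2 * r) ^ 2 * e * c with hu'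
      have h5 : X * (1 + e * u) = (1 - r * e * b + e ^ 2 * β) * (1 + e * u') := by
        rw [hu, hu']; linear_combination h4
      refine ⟨β - r * b * u' + u ^ 2 + r * b * u - u * u' - (4 * r + 1) * c, ?_⟩
      have h6 : u' = u - b - (4 * r + 1) * e * c := by rw [hu, hu']; ring
      push_cast
      rw [h6] at h5 ⊢
      generalize u = u at h5
      linear_combination (1 - e * u + e ^ 2 * u ^ 2) * h5 - X * u ^ 3 * he
        + ((β * (u - b - (4 * r + 1) * e * c) - u * (β - r * b * (u - b - (4 * r + 1) * e * c))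
          + u ^ 2 * ((u - b - (4 * r + 1) * e * c) - r * b))
          + e * (-(u * β * (u - b - (4 * r + 1) * e * c))
            + u ^ 2 * (β - r * b * (u - b - (4 * r + 1) * e * c)))
          + e ^ 2 * u ^ 2 * β * (u - b - (4 * r + 1) * e * c)) * he
  obtain ⟨β, hβ⟩ := hBr r
  refine ⟨⟨m0, by ring⟩, ?_⟩
  have E1 : e ^ 2 * (n1 - 2 * m0) = 0 := by
    linear_combination (-e) * t0 + (n2 + a' * (m0 - n1 + e * n2)) * he
  have E2 : e ^ 2 * (b - 2 * a') = 0 := by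
    linear_combination (-e) * h2 + (a' ^ 2 - a' * b + c + e * a' * c) * he
  have E3 : e * (2 * m0 - n1) + e ^ 2 * (n2 - m0 * a') = 0 := by
    linear_combination t0 + a' * E1 - n2 * a' * he
  have E4 : e * (2 * m0 - n1) + e ^ 2 * (5 * n2 - 9 * m0 * a') = 0 := by
    linear_combination t1 + 2 * (a' + b) * E1 + 3 * m0 * E2
      - (4 * n2 * (a' + b) + c * (m0 - 2 * n1 + 4 * e * n2)) * he
  have E5 : e ^ 2 * (n2 - 2 * m0 * a') = 0 := by
    linear_combination hf ^ 2 * (E4 - E3) - (hf * 2 + 1) * e ^ 2 * (n2 - 2 * m0 * a') * hh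
  rw [hβ]
  linear_combination (-2 * r) * E3 + (4 * r ^ 2 + 2 * r) * E5 - 2 * r ^ 2 * b * E1
    - (r * m0 + 4 * r ^ 2 * m0) * E2
    + (-(4 * r ^ 3 * b * n2) + (β + w * (1 - r * e * b + e ^ 2 * β))
      * (m0 + 2 * r * n1 + 4 * r ^ 2 * e * n2)) * he

end Pool.Agent.H.MP_40e425_nt
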