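import Mathlib
import Pool.Agent.H.MP_c9c571_nt.B

open Finset

namespace Pool.Agent.H.MP_40e425_nt

open Pool.Agent.H.MP_c9c571_nt

variable {K : Type*} [Field K]

def G3 (q Y : K) (k : ℕ) : K :=
  ∏ j ∈ range k, (Y - q ^ (2 * j + 1)) * (1 - Y * q ^ (2 * j + 1)) * (1 - q ^ (2 * j + 1)) ^ 2
    * (1 - q ^ (4 * j + 2)) / ((Y - q ^ (2 * j + 2)) * (1 - Y * q ^ (2 * j + 2))
    * (1 - q ^ (2 * j + 2)) ^ 2 * (1 - q ^ (4 * j + 4)))

def F3 (q Y : K) (k : ℕ) : K := (-q) ^ k * (1 - q ^ (4 * k + 1)) * G3 q Y k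

def H3 (q Y : K) (k : ℕ) : K :=
  ∏ j ∈ range k, (Y * q ^ 3 - q ^ (2 * j)) * (1 - Y * q ^ (2 * j + 1)) * (1 - q ^ (2 * j + 1)) ^ 2
    * (1 - q ^ (4 * j + 2)) / (q ^ 3 * (Y - q ^ (2 * j + 2)) * (1 - Y * q ^ (2 * j + 6))
    * (1 - q ^ (2 * j + 2)) ^ 2 * (1 - q ^ (4 * j + 4)))

section
variable {q : K} (hq : q ≠ 0) (h : ∀ j, 0 < j → 1 - q ^ j ≠ 0)
include hq h

theorem G3_H (v k : ℕ) (Y : K) (hY : Y = q ^ (4 * v + 1)) :
    G3 q (Y * q ^ 4) k * ((1 - Y * q) * (1 - Y * q ^ 3) * (Y * q ^ 2 - 1) * (Y - 1)) = H3 q Y k *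
      ((1 - Y * q ^ (2 * k + 1)) * (1 - Y * q ^ (2 * k + 3)) * (Y * q ^ 2 - q ^ (2 * k))
        * (Y - q ^ (2 * k))) ∧
    G3 q Y k * ((Y * q ^ 3 - 1) * (Y * q - 1) * (1 - Y * q ^ 2) * (1 - Y * q ^ 4)) = H3 q Y k *
      ((Y * q ^ 3 - q ^ (2 * k)) * (Y * q - q ^ (2 * k)) * (1 - Y * q ^ (2 * k + 2))
        * (1 - Y * q ^ (2 * k + 4))) := by
  induction k with
  | zero => simp [G3, H3]
  | succ k ih =>
    obtain ⟨i1, i2⟩ := ih
    have n1 : Y - q ^ (2 * k + 2) ≠ 0 := by rw [hY]; exact pne hq h (by omega)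
    have n2 : Y * q ^ 2 - q ^ (2 * k) ≠ 0 := by rw [hY, ← pow_add]; exact pne hq h (by omega)
    have n3 : 1 - Y * q ^ (2 * k + 6) ≠ 0 := by rw [hY, ← pow_add]; exact h _ (by omega)
    have n4 : 1 - Y * q ^ (2 * k + 2) ≠ 0 := by rw [hY, ← pow_add]; exact h _ (by omega)
    have n5 : 1 - q ^ (4 * k + 4) ≠ 0 := h _ (by omega)
    have n6 : 1 - q ^ (2 * k + 2) ≠ 0 := h _ (by omega)
    have e1 : Y * q ^ 4 - q ^ (2 * k + 2) = q ^ 2 * (Y * q ^ 2 - q ^ (2 * k)) := by ring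
    have e2 : 1 - Y * q ^ 4 * q ^ (2 * k + 2) = 1 - Y * q ^ (2 * k + 6) := by ring
    constructor
    · rw [G3, H3, prod_range_succ, prod_range_succ, ← G3, ← H3, mul_right_comm, i1, e1, e2]
      field_simp
      ring
    · rw [G3, H3, prod_range_succ, prod_range_succ, ← G3, ← H3, mul_right_comm, i2]
      field_simp
      ring

theorem F3_step (v M : ℕ) (Y : K) (hY : Y = q ^ (4 * v + 1)) :
    q * (1 - q ^ 3 * Y) ^ 2 * ((1 - Y * q) * (1 - Y * q ^ 3) * (Y * q ^ 2 - 1) * (Y - 1))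
        * q * (∑ k ∈ range M, F3 q (Y * q ^ 4) k)
      - q ^ 2 * (1 - q * Y) ^ 2 * ((Y * q ^ 3 - 1) * (Y * q - 1) * (1 - Y * q ^ 2) * (1 - Y * q ^ 4))
        * ∑ k ∈ range M, F3 q Y k
      = (1 - q) * (q ^ 4 * Y ^ 2 - 1) * Y * q * (q ^ 3 * (-q) ^ M * H3 q Y M * (Y - q ^ (2 * M))
        * (1 - Y * q ^ (2 * M + 4)) * (1 - q ^ (2 * M)) ^ 2 * (1 - q ^ (4 * M))) := by
  induction M with
  | zero => simp
  | succ M ih =>
    obtain ⟨a1, a2⟩ := G3_H hq h v M Y hY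
    have n1 : Y - q ^ (2 * M + 2) ≠ 0 := by rw [hY]; exact pne hq h (by omega)
    have n3 : 1 - Y * q ^ (2 * M + 6) ≠ 0 := by rw [hY, ← pow_add]; exact h _ (by omega)
    have n5 : 1 - q ^ (4 * M + 4) ≠ 0 := h _ (by omega)
    have n6 : 1 - q ^ (2 * M + 2) ≠ 0 := h _ (by omega)
    have a3 : q ^ 3 * H3 q Y (M + 1) * (Y - q ^ (2 * (M + 1))) * (1 - Y * q ^ (2 * (M + 1) + 4))
        * (1 - q ^ (2 * (M + 1))) ^ 2 * (1 - q ^ (4 * (M + 1)))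
        = H3 q Y M * ((Y * q ^ 3 - q ^ (2 * M)) * (1 - Y * q ^ (2 * M + 1))
          * (1 - q ^ (2 * M + 1)) ^ 2 * (1 - q ^ (4 * M + 2))) := by
      rw [H3, H3, prod_range_succ, show 2 * (M + 1) + 4 = 2 * M + 6 by ring,
        show 2 * (M + 1) = 2 * M + 2 by ring, show 4 * (M + 1) = 4 * M + 4 by ring]
      field_simp
    rw [sum_range_succ, sum_range_succ, F3, F3]
    linear_combination ih + (-q) ^ M * (1 - q ^ (4 * M + 1)) * (q ^ 2 * (1 - q ^ 3 * Y) ^ 2 * a1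
      - q ^ 2 * (1 - q * Y) ^ 2 * a2) + (1 - q) * (q ^ 4 * Y ^ 2 - 1) * Y * q * q * (-q) ^ M * a3

theorem F3_sum (v M : ℕ) (hM : 2 * v < M) :
    (∏ j ∈ range v, (1 - q ^ (4 * j + 4))) ^ 2 * ∑ k ∈ range M, F3 q (q ^ (4 * v + 1)) k
      = (1 - q ^ (4 * v + 1)) * (∏ j ∈ range v, (1 - q ^ (4 * j + 2))) ^ 2 := by
  induction v with
  | zero =>
    obtain ⟨M, rfl⟩ : ∃ m, M = m + 1 := ⟨M - 1, by omega⟩
    rw [sum_range_succ', sum_eq_zero]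
    · simp [F3, G3]
    · intro k _
      rw [F3, G3, prod_eq_zero (i := 0) (by simp) (by simp), mul_zero]
  | succ v ih =>
    have h1 := ih (by omega)
    have h2 := F3_step hq h v M _ rfl
    have h3 : H3 q (q ^ (4 * v + 1)) M = 0 := by
      rw [H3, prod_eq_zero (i := 2 * (v + 1)) (by simpa using hM)]
      rw [show q ^ (4 * v + 1) * q ^ 3 - q ^ (2 * (2 * (v + 1))) = 0 by ring]; simp
    rw [h3, ← pow_add q (4 * v + 1) 4, show 4 * v + 1 + 4 = 4 * (v + 1) + 1 by ring] at h2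
    have n1 : q ^ 2 * ((1 - q ^ (4 * v + 2)) * (1 - q ^ (4 * v + 4)) * (1 - q ^ (4 * v + 3))
        * (1 - q ^ (4 * v + 1))) ≠ 0 :=
      mul_ne_zero (pow_ne_zero _ hq) (mul_ne_zero (mul_ne_zero (mul_ne_zero (h _ (by omega))
        (h _ (by omega))) (h _ (by omega))) (h _ (by omega)))
    apply mul_left_cancel₀ n1
    rw [prod_range_succ, prod_range_succ]
    linear_combination (∏ j ∈ range v, (1 - q ^ (4 * j + 4))) ^ 2 * h2
      + q ^ 2 * (1 - q ^ (4 * v + 2)) ^ 3 * (1 - q ^ (4 * v + 4)) * (1 - q ^ (4 * v + 3))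
        * (1 - q ^ (4 * v + 5)) * h1

end

end Pool.Agent.H.MP_40e425_nt
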