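import Mathlib
import Pool.Agent.H.MP_40e425_nt.A

open Finset

namespace Pool.Agent.H.MP_40e425_nt

open Pool.Agent.H.MP_c9c571_nt Pool.Agent.H.MP_74870a_nt

variable {A : Type*} [CommRing A]

noncomputable def iv (z : A) (j : ℕ) : A := Ring.inverse (1 - z ^ j)

theorem U_V (z : A) {n s : ℕ} (hn : n = 2 * s + 1) (r k : ℕ) (hk : k ≤ s) :
    U z (iv z) n (n * (2 * r) + 2 * k) = U z (iv z) n (n * (2 * r)) * V z (z ^ (n * (2 * r))) k := by
  induction k with
  | zero => simp [V]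
  | succ k ih =>
    have hp : (n * (2 * r)) % 2 = 0 := by rw [show n * (2 * r) = 2 * (n * r) by ring]; omega
    rw [V_succ, ← mul_assoc (U z (iv z) n (n * (2 * r))), ← ih (by omega), U,
      show n * (2 * r) + 2 * (k + 1) = n * (2 * r) + 2 * k + 1 + 1 by ring, prod_range_succ,
      prod_range_succ, ← U, u, u, add_assoc, add_assoc, add_assoc,
      if_neg (nd (by omega) (by omega)), if_neg (nd (by omega) (by omega)), if_pos (by omega),
      if_neg (by omega), iv, ← pow_add, ← pow_add]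
    ring

theorem U_step (z : A) {n s : ℕ} (hn : n = 2 * s + 1) (hu : ∀ j, ¬ n ∣ j → IsUnit (1 - z ^ j))
    (r : ℕ) : U z (iv z) n (n * (2 * (r + 1))) * V z (z ^ (n * (2 * r + 1))) s
      = U z (iv z) n (n * (2 * r)) * V z (z ^ (n * (2 * r))) s := by
  have e1 : n * (2 * (r + 1)) = (n * (2 * r) + 2 * s) + 1 + 2 * s + 1 := by rw [hn]; ring
  have e2 : n * (2 * r) + 2 * s + 1 = n * (2 * r + 1) := by rw [hn]; ring
  have h3 : U z (iv z) n (n * (2 * (r + 1))) = U z (iv z) n (n * (2 * r) + 2 * s)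
      * ∏ i ∈ range (2 * s), u z (iv z) n (n * (2 * r + 1) + i + 1) := by
    rw [U]
    conv_lhs => rw [e1]
    rw [prod_range_succ, ← e1, prod_range_add, prod_range_succ, e2, ← U]
    simp [u]
  have h4 : ∀ k, k ≤ s → (∏ i ∈ range (2 * k), u z (iv z) n (n * (2 * r + 1) + i + 1))
      * V z (z ^ (n * (2 * r + 1))) k = 1 := by
    intro k hk
    induction k with
    | zero => simp [V]
    | succ k ih =>
      have hp : (n * (2 * r + 1)) % 2 = 1 := by
        rw [show n * (2 * r + 1) = 2 * (n * r) + n by ring]; omega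
      have n1 : ¬ n ∣ n * (2 * r + 1) + (2 * k + 1) := nd (by omega) (by omega)
      have n2 : ¬ n ∣ n * (2 * r + 1) + (2 * k + 1 + 1) := nd (by omega) (by omega)
      have a1 := Ring.mul_inverse_cancel _ (hu _ n1)
      have a2 := Ring.mul_inverse_cancel _ (hu _ n2)
      rw [V_succ, show 2 * (k + 1) = 2 * k + 1 + 1 by ring, prod_range_succ, prod_range_succ, u, u,
        add_assoc, add_assoc, if_neg n1, if_neg n2, if_neg (by omega), if_pos (by omega), iv,
        ← pow_add, ← pow_add]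
      have h5 := ih (by omega)
      generalize Ring.inverse (1 - z ^ (n * (2 * r + 1) + (2 * k + 1))) = i1 at a1
      generalize Ring.inverse (1 - z ^ (n * (2 * r + 1) + (2 * k + 1 + 1))) = i2 at a2
      linear_combination ((1 - z ^ (n * (2 * r + 1) + (2 * k + 1))) * i1
        * ((1 - z ^ (n * (2 * r + 1) + (2 * k + 1 + 1))) * i2)) * h5
        + ((1 - z ^ (n * (2 * r + 1) + (2 * k + 1 + 1))) * i2) * a1 + a2
  rw [h3, mul_assoc, h4 s le_rfl, mul_one, U_V z hn r s le_rfl]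

theorem Q3.dvd {e : A} {F : ℤ → A} (h : Q3 e F) (t : ℤ) : e ∣ F t - F 0 := by
  obtain ⟨a, b, c, h⟩ := h
  exact ⟨t * b + t ^ 2 * e * c, by rw [h, h]; push_cast; ring⟩

noncomputable def tm (x : A) (n r k : ℕ) : A := (-x) ^ k * (1 - x ^ (4 * (n * r + k) + 1)) *
  U x (iv x) n (n * (2 * r) + 2 * k) ^ 4 * U (x ^ 2) (iv (x ^ 2)) n (n * (2 * r) + 2 * k)

theorem block (X : Aˣ) {x hf : A} (hx : x = X) {n v : ℕ} (hn : n = 2 * (2 * v) + 1) (hh : hf * 2 = 1)
    (he : (x ^ n - 1) ^ 3 = 0) (hu : ∀ j, ¬ n ∣ j → IsUnit (1 - x ^ j))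
    (hu2 : ∀ j, ¬ n ∣ j → IsUnit (1 - (x ^ 2) ^ j)) :
    (∀ k d, k + d = 2 * v → x ^ n - 1 ∣ tm x n 0 k + tm x n 0 d) ∧
    ∀ (r : ℕ) (G w : A), G * x ^ (n * (2 * r)) = 1 + (x ^ n - 1) ^ 2 * w →
      G * ∑ k ∈ range (2 * v + 1), tm x n r k = (4 * r + 1) * ∑ k ∈ range (2 * v + 1), tm x n 0 k := by
  set e := x ^ n - 1 with hedef
  set y : ℤ → A := fun t => (((X ^ n) ^ t : Aˣ) : A) with hy
  have qy : Q3 e y := by
    have := Q3.zpow (X ^ n) hf hh (by rw [Units.val_pow_eq_pow_val, ← hx]; exact he)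
    rwa [Units.val_pow_eq_pow_val, ← hx] at this
  have qy' : Q3 e fun t => y (-t) := by
    obtain ⟨a, b, c, h⟩ := qy
    exact ⟨a, -b, c, fun t => by simp only [h]; push_cast; ring⟩
  have y0 : y 0 = 1 := by simp [hy]
  have yn : ∀ m : ℕ, y m = x ^ (n * m) := fun m => by
    simp only [hy, zpow_natCast, Units.val_pow_eq_pow_val, ← hx, pow_mul]
  have ya : ∀ a b, y (a + b) = y a * y b := fun a b => by simp only [hy, zpow_add, Units.val_mul]
  have y1 : y 1 = x ^ n := by simpa using yn 1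
  have yr : ∀ t, y t * y (-1 - t) * x ^ n = 1 := fun t => by
    rw [← y1, ← ya, ← ya, ← y0]; congr 1; ring
  have yi : ∀ t, y t * y (-t) = 1 := fun t => by rw [← ya, ← y0]; congr 1; ring
  have yr2 : ∀ t, y t ^ 2 * y (-1 - t) ^ 2 * (x ^ 2) ^ n = 1 := fun t => by
    linear_combination (y t * y (-1 - t) * x ^ n + 1) * yr t
  have v1 := fun k hk => V_Q he qy y0 n k hk fun i h1 h2 => hu i (nd0 h1 h2)
  have v2 := fun k hk => V_Q he (qy.pow he 2) (by simp [y0]) n k hk fun i h1 h2 => hu2 i (nd0 h1 h2)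
  have u1 := (v1 0 (by omega)).1
  have u2 := (v2 0 (by omega)).1
  have R1 := fun t => V_refl hn (yr t) (u1 t) (u1 (-1 - t))
  have R2 := fun t => V_refl hn (yr2 t) (u2 t) (u2 (-1 - t))
  set nk : ℕ → ℤ → A := fun k t => (-x) ^ k * (y (-t) - x ^ (4 * k + 1) * y t) * V x (y t) k ^ 4
    * V (x ^ 2) (y t ^ 2) k with hnk
  set ρ : ℤ → A := fun t => V x (y t) (2 * v) ^ 4 * V (x ^ 2) (y t ^ 2) (2 * v) * x ^ (6 * v) with hρ
  have qn : ∀ k, k < 2 * v + 1 → Q3 e (nk k) := fun k hk =>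
    (((Q3.const e _).mul he (qy'.sub he ((Q3.const e _).mul he qy))).mul he
      ((v1 k (by omega)).2.pow he 4)).mul he (v2 k (by omega)).2
  have qρ : Q3 e ρ := (((v1 _ (by omega)).2.pow he 4).mul he (v2 _ (by omega)).2).mul he
    (Q3.const e _)
  have hxu : IsUnit x := hx ▸ X.isUnit
  have rn : ∀ k d t, k + d = 2 * v → nk d (-1 - t) * ρ t = -nk k t := fun k d t hkd => by
    have a1 := R1 t k d hkd
    have a2 := R2 t k d hkd
    have a3 : y (-(-1 - t)) = y t * x ^ n := by rw [← y1, ← ya]; congr 1; ring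
    have a4 : y (-1 - t) * x ^ n = y (-t) := by rw [← y1, ← ya]; congr 1; ring
    have a5 : (-x) ^ d = (-1) ^ k * x ^ d := by
      rw [neg_pow, neg_one_pow_congr (m := d) (n := k) (by
        rw [Nat.even_iff, Nat.even_iff]; omega)]
    have a6 : x ^ (6 * v) = (x ^ k * x ^ d) ^ 3 := by rw [← pow_add, hkd]; ring
    have a7 : x ^ n = (x ^ k * x ^ d) ^ 2 * x := by rw [← pow_add, hkd, hn]; ring
    simp only [hnk, hρ]
    rw [← a1, ← a2, a3, ← a4, a5, a6, a7, neg_pow x k]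
    ring
  have ρ2 : ρ (-1) * ρ 0 = 1 := by
    have a1 := R1 0 0 (2 * v) (by omega)
    have a2 := R2 0 0 (2 * v) (by omega)
    simp only [hρ]
    rw [show V x (y 0) 0 = 1 from rfl, sub_zero] at a1
    rw [show V (x ^ 2) (y 0 ^ 2) 0 = 1 from rfl, sub_zero] at a2
    calc _ = (V x (y (-1)) (2 * v) * V x (y 0) (2 * v) * x ^ (2 * v)) ^ 4 *
        (V (x ^ 2) (y (-1) ^ 2) (2 * v) * V (x ^ 2) (y 0 ^ 2) (2 * v) * (x ^ 2) ^ (2 * v)) := by ring
      _ = 1 := by rw [a1, a2]; ring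
  have ρ3 : e ∣ ρ 0 - 1 := by
    have k : ∀ {z : A} {W : ℤ → A} {S : A}, Q3 e W → W (-1 - 0) * S * z ^ v = W 0 → IsUnit (W 0) →
        e ∣ S * z ^ v - 1 := fun {z W S} hW h hU => by
      obtain ⟨c, hc⟩ := hW.dvd (-1 - 0)
      rw [← hU.dvd_mul_left]
      exact ⟨-(c * S * z ^ v), by linear_combination h - S * z ^ v * hc⟩
    have hV : ∀ {z Y : A}, (∀ i, 0 < i → i < n → IsUnit (1 - Y * z ^ i)) → IsUnit (V z Y v) :=
      fun {z Y} h => IsUnit.prod_iff.2 fun j hj => by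
        have := mem_range.1 hj
        exact (h _ (by omega) (by omega)).mul (h _ (by omega) (by omega)).ringInverse
    obtain ⟨c1, h1⟩ := k (v1 v (by omega)).2 (R1 0 v v (by omega)) (hV (u1 0))
    obtain ⟨c2, h2⟩ := k (v2 v (by omega)).2 (R2 0 v v (by omega)) (hV (u2 0))
    have : ρ 0 = (1 + e * c1) ^ 4 * (1 + e * c2) := by
      rw [← eq_add_of_sub_eq' h1, ← eq_add_of_sub_eq' h2]; simp only [hρ]; ring
    rw [this]
    exact ⟨c2 * (1 + e * c1) ^ 4 + c1 * ((1 + e * c1) ^ 3 + (1 + e * c1) ^ 2 + (1 + e * c1) + 1),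
      by ring⟩
  set B : ℕ → A := fun r => U x (iv x) n (n * (2 * r)) ^ 4 * U (x ^ 2) (iv (x ^ 2)) n (n * (2 * r))
    with hB
  have tn : ∀ r k, k ≤ 2 * v → tm x n r k = B r * x ^ (n * (2 * r)) * nk k (2 * r) := fun r k hk => by
    have a1 := yn (2 * r)
    have a2 := yi (2 * r)
    push_cast at a1
    rw [tm, U_V x hn r k hk, U_V (x ^ 2) hn r k hk]
    simp only [hnk, hB]
    rw [show (x ^ 2) ^ (n * (2 * r)) = (x ^ (n * (2 * r))) ^ 2 by ring,
      show x ^ (4 * (n * r + k) + 1) = (x ^ (n * (2 * r))) ^ 2 * x ^ (4 * k + 1) by ring, ← a1]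
    linear_combination (-((-x) ^ k * U x (iv x) n (n * (2 * r)) ^ 4 * V x (y (2 * r)) k ^ 4
      * U (x ^ 2) (iv (x ^ 2)) n (n * (2 * r)) * V (x ^ 2) (y (2 * r) ^ 2) k)) * a2
  have B0 : B 0 = 1 := by simp [hB, U]
  have t0 : ∀ k, k ≤ 2 * v → tm x n 0 k = nk k 0 := fun k hk => by
    rw [tn 0 k hk, B0]; simp
  refine ⟨fun k d hkd => ?_, fun r G w hG => ?_⟩
  · rw [t0 k (by omega), t0 d (by omega)]
    obtain ⟨c1, h1⟩ := (qn d (by omega)).dvd (-1 - 0)
    obtain ⟨c2, h2⟩ := ρ3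
    exact ⟨-c1 - nk d (-1 - 0) * c2, by
      linear_combination rn k d 0 hkd - h1 - nk d (-1 - 0) * h2⟩
  · have := (alg he hh (Q3.sum (2 * v + 1) qn) qρ (fun t => by
      rw [← sum_range_reflect, sum_mul, ← sum_neg_distrib]
      exact sum_congr rfl fun k hk => rn k _ t (by have := mem_range.1 hk; omega)) ρ2 ρ3 B B0
      (fun r => by
        have a1 := yn (2 * r)
        have a2 := yn (2 * r + 1)
        push_cast at a1 a2
        have s1 := U_step x hn hu r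
        have s2 := U_step (x ^ 2) hn hu2 r
        rw [show (x ^ 2) ^ (n * (2 * r)) = (x ^ (n * (2 * r))) ^ 2 by ring,
          show (x ^ 2) ^ (n * (2 * r + 1)) = (x ^ (n * (2 * r + 1))) ^ 2 by ring] at s2
        simp only [hB, hρ]
        rw [a1, a2]
        calc _ = (U x (iv x) n (n * (2 * (r + 1))) * V x (x ^ (n * (2 * r + 1))) (2 * v)) ^ 4 *
            (U (x ^ 2) (iv (x ^ 2)) n (n * (2 * (r + 1))) *
              V (x ^ 2) ((x ^ (n * (2 * r + 1))) ^ 2) (2 * v)) * x ^ (6 * v) := by ring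
          _ = _ := by rw [s1, s2]; ring) r w).2
    rw [sum_congr rfl fun k hk => t0 k (by have := mem_range.1 hk; omega), ← this, ← hG,
      sum_congr rfl fun k hk => tn r k (by have := mem_range.1 hk; omega), ← mul_sum]
    ring

noncomputable def th (x : A) (k : ℕ) : A :=
  ∑ j ∈ range k, (x ^ (2 * j + 1 + 1) * iv x (2 * j + 1 + 1) ^ 2 - x ^ (2 * j + 1) * iv x (2 * j + 1) ^ 2)

theorem th_refl {x : A} {n v : ℕ} (hn : n = 2 * (2 * v) + 1) (hu : ∀ j, ¬ n ∣ j → IsUnit (1 - x ^ j))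
    (k d : ℕ) (hkd : k + d = 2 * v) : x ^ n - 1 ∣ th x k - th x d := by
  have f : ∀ a b, a + b = n → 0 < a → 0 < b →
      x ^ n - 1 ∣ x ^ a * iv x a ^ 2 - x ^ b * iv x b ^ 2 := fun a b hab ha hb => by
    have a1 := Ring.mul_inverse_cancel _ (hu a (nd0 ha (by omega)))
    have a2 := Ring.mul_inverse_cancel _ (hu b (nd0 hb (by omega)))
    rw [← hab, pow_add, iv, iv]
    generalize Ring.inverse (1 - x ^ a) = i at a1
    generalize Ring.inverse (1 - x ^ b) = j at a2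
    refine ⟨(x ^ b - x ^ a) * i ^ 2 * j ^ 2, ?_⟩
    linear_combination (x ^ b * j ^ 2 * ((1 - x ^ a) * i + 1)) * a1
      - (x ^ a * i ^ 2 * ((1 - x ^ b) * j + 1)) * a2
  have g : ∀ d k, k + d = 2 * v → x ^ n - 1 ∣ th x (2 * v) - th x k + th x d := by
    intro d
    induction d with
    | zero => intro k h; rw [← h]; simp [th]
    | succ d ih =>
      intro k h
      obtain ⟨c1, h1⟩ := ih (k + 1) (by omega)
      obtain ⟨c2, h2⟩ := f (2 * k + 1) (2 * d + 1 + 1) (by omega) (by omega) (by omega)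
      obtain ⟨c3, h3⟩ := f (2 * k + 1 + 1) (2 * d + 1) (by omega) (by omega) (by omega)
      rw [th.eq_1 x (k + 1), sum_range_succ, ← th] at h1
      rw [th.eq_1 x (d + 1), sum_range_succ, ← th]
      exact ⟨c1 - c2 + c3, by linear_combination h1 - h2 + h3⟩
  obtain ⟨c1, h1⟩ := g d k hkd
  obtain ⟨c2, h2⟩ := g v v (by omega)
  exact ⟨c2 - c1, by linear_combination h2 - h1⟩

end Pool.Agent.H.MP_40e425_nt
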