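import Mathlib
import Pool.Agent.H.MP_c9c571_nt.D
import Pool.Agent.H.MP_40e425_nt.C

open Finset Polynomial

namespace Pool.Agent.H.MP_40e425_nt

open Pool.Agent.H.MP_4d1f21_nt Pool.Agent.H.MP_74870a_nt Pool.Agent.H.MP_c9c571_nt

section
variable {A : Type*} [CommRing A] [Algebra ℚ A]

def tr (e : A) (a b c : ℚ) : A := algebraMap ℚ A a + algebraMap ℚ A b * e + algebraMap ℚ A c * e ^ 2

theorem tr_mul {e : A} (he : e ^ 3 = 0) (a b c a' b' c' : ℚ) :
    tr e a b c * tr e a' b' c' = tr e (a * a') (a * b' + b * a') (a * c' + b * b' + c * a') := by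
  simp only [tr, map_add, map_mul]
  linear_combination (algebraMap ℚ A b * algebraMap ℚ A c' + algebraMap ℚ A c * algebraMap ℚ A b'
    + algebraMap ℚ A c * algebraMap ℚ A c' * e) * he

theorem tr_add (e : A) (a b c a' b' c' : ℚ) :
    tr e a b c + tr e a' b' c' = tr e (a + a') (b + b') (c + c') := by
  simp only [tr, map_add]; ring

theorem tr_c (e : A) (a : ℚ) : algebraMap ℚ A a = tr e a 0 0 := by simp [tr]

theorem tr_congr (e : A) {a b c a' b' c' : ℚ} (h1 : a = a') (h2 : b = b') (h3 : c = c') :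
    tr e a b c = tr e a' b' c' := by rw [h1, h2, h3]

theorem tr_pow {e : A} (he : e ^ 3 = 0) (m : ℕ) : (1 + e) ^ m = tr e 1 m (m * (m - 1) / 2) := by
  induction m with
  | zero => simp [tr]
  | succ m ih =>
    rw [pow_succ, ih, show 1 + e = tr e 1 1 0 by simp [tr], tr_mul he]
    apply tr_congr <;> push_cast <;> ring

theorem tr_geo {e : A} (he : e ^ 3 = 0) (m : ℕ) :
    ∑ i ∈ range m, (1 + e) ^ i = tr e m (m * (m - 1) / 2) (m * (m - 1) * (m - 2) / 6) := by
  induction m with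
  | zero => simp [tr]
  | succ m ih =>
    rw [sum_range_succ, ih, tr_pow he, tr_add]
    apply tr_congr <;> push_cast <;> ring

theorem tr_two {e : A} (he : e ^ 3 = 0) (a b c : ℚ) :
    tr ((1 + e) ^ 2 - 1) a b c = tr e a (2 * b) (b + 4 * c) := by
  simp only [tr, map_add, map_mul, map_ofNat]
  linear_combination (algebraMap ℚ A c * (4 + e)) * he

def rt (e : A) (r : ℕ) : A := tr e 1 (-r / 2) (r * (r + 5) / 24)

theorem rt_all {e : A} (he : e ^ 3 = 0) (r : ℕ) :
    (1 + e) ^ r * rt e r ^ 4 * rt ((1 + e) ^ 2 - 1) r = tr e 1 (-2 * r) ((4 * r ^ 2 + 2 * r) / 3) := by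
  rw [rt, rt, tr_two he, tr_pow he, pow_succ, pow_succ, pow_succ, pow_one, tr_mul he, tr_mul he,
    tr_mul he, tr_mul he, tr_mul he]
  apply tr_congr <;> ring

end

variable {P : ℚ[X]} [Nontrivial (AdjoinRoot P)]

theorem rel_ratio3 {y : RatFunc ℚ} {e : AdjoinRoot P} (hy : Rel P y (1 + e)) (he : e ^ 3 = 0)
    (hK : ∀ j, 0 < j → 1 - y ^ j ≠ 0) (r : ℕ) :
    Rel P (Pp y 1 (2 * r) / Pp y 0 (2 * r)) (algebraMap ℚ _ (gam r) * rt e r) := by
  rw [Pp_one, Pp_zero]
  induction r with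
  | zero => simpa [gam, rt, tr] using Rel.one
  | succ r ih =>
    have h1 : (1 - y) ≠ 0 := by simpa using hK 1 one_pos
    have e1 : 1 - y * (y ^ 2) ^ r = (∑ i ∈ range (2 * r + 1), y ^ i) * (1 - y) := by
      rw [geom_sum_mul_neg]; ring
    have e2 : 1 - y ^ 2 * (y ^ 2) ^ r = (∑ i ∈ range (2 * r + 2), y ^ i) * (1 - y) := by
      rw [geom_sum_mul_neg]; ring
    rw [prod_range_succ, prod_range_succ, mul_div_mul_comm, e1, e2, mul_div_mul_right _ _ h1,
      div_eq_mul_inv (∑ i ∈ range (2 * r + 1), y ^ i)]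
    have r1 := Rel.sum (range (2 * r + 1)) fun i _ => hy.pow i
    have r2 := Rel.sum (range (2 * r + 2)) fun i _ => hy.pow i
    rw [tr_geo he] at r1 r2
    have hr : (2 * r + 2 : ℚ) ≠ 0 := by positivity
    have r3 := r2.inv (b := tr e (1 / (2 * r + 2)) (-(2 * r + 1) / (2 * (2 * r + 2)))
        ((2 * r + 1) * (2 * r + 3) / (12 * (2 * r + 2)))) (by
      rw [tr_mul he, ← map_one (algebraMap ℚ (AdjoinRoot P)), tr_c e]
      apply tr_congr <;> push_cast <;> field_simp <;> ring)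
    convert ih.mul (r1.mul r3) using 1
    rw [gam, prod_range_succ, ← gam, rt, rt, tr_c e, tr_c e, tr_mul he, tr_mul he, tr_mul he,
      tr_mul he]
    apply tr_congr <;> push_cast <;> field_simp <;> ring

section
variable {y : RatFunc ℚ} {x : AdjoinRoot P} (hy : Rel P y x) (hK : ∀ j, 0 < j → 1 - y ^ j ≠ 0)
  {n s : ℕ} (hn : n = 2 * s + 1) (he : (x ^ n - 1) ^ 3 = 0)
  (hu : ∀ j, ¬ n ∣ j → IsUnit (1 - x ^ j))
include hy hK hn he hu

theorem rel_hh (K : ℕ) {z : AdjoinRoot P}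
    (hz : Rel P (Pp (y ^ n) 1 (2 * K / n) / Pp (y ^ n) 0 (2 * K / n)) z) :
    Rel P (hh y K) (U x (iv x) n (2 * K) * z) := by
  have hiv : ∀ j, ¬ n ∣ j → (1 - x ^ j) * iv x j = 1 := fun j hj => Ring.mul_inverse_cancel _ (hu j hj)
  have rN : ∀ p, Rel P (Np y n p (2 * K)) (Np x n p (2 * K)) := fun p => by
    refine Rel.prod _ fun j _ => ?_
    split_ifs
    · exact Rel.one.sub (hy.pow _)
    · exact Rel.one
  have hu : IsUnit (Np x n 0 (2 * K)) := by
    refine IsUnit.prod_iff.2 fun j _ => ?_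
    split_ifs with h
    · exact hu _ h.2
    · exact isUnit_one
  obtain ⟨w, hw⟩ := hu.exists_right_inv
  rw [hh, ← Pp_one, ← Pp_zero, Pp_split y (n := n) (by omega) 1, Pp_split y (n := n) (by omega) 0,
    mul_div_mul_comm, div_eq_mul_inv]
  convert ((rN 1).mul ((rN 0).inv hw)).mul hz using 2
  rw [← U_Np hiv, mul_assoc, hw, mul_one]

theorem rel_lo3 (r k : ℕ) (hk : k ≤ s) : Rel P (hh y (n * r + k))
    (U x (iv x) n (n * (2 * r) + 2 * k) * (algebraMap ℚ _ (gam r) * rt (x ^ n - 1) r)) := by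
  have e1 : 2 * (n * r + k) = n * (2 * r) + 2 * k := by ring
  have e2 : 2 * (n * r + k) / n = 2 * r := by
    rw [e1, Nat.mul_add_div (by omega), Nat.div_eq_of_lt (by omega), add_zero]
  rw [← e1]
  refine rel_hh hy hK hn he hu _ ?_
  rw [e2]
  exact rel_ratio3 (y := y ^ n) (e := x ^ n - 1) (by simpa using hy.pow n) he
    (fun j hj => by rw [← pow_mul]; exact hK _ (Nat.mul_pos (by omega) hj)) r

theorem rel_hi3 (r k : ℕ) (hk : s < k) (hk2 : k < n) :
    ∃ z, Rel P (hh y (n * r + k)) ((x ^ n - 1) * z) := by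
  have e1 : 2 * (n * r + k) = n * (2 * r + 1) + (2 * k - n) := by
    rw [mul_add, mul_add, show 2 * (n * r) = n * (2 * r) by ring]; omega
  have e2 : 2 * (n * r + k) / n = 2 * r + 1 := by
    rw [e1, Nat.mul_add_div (by omega), Nat.div_eq_of_lt (by omega), add_zero]
  have h1 := rel_ratio3 (y := y ^ n) (e := x ^ n - 1) (by simpa using hy.pow n) he
    (fun j hj => by rw [← pow_mul]; exact hK _ (Nat.mul_pos (by omega) hj)) r
  have e3 : Pp (y ^ n) 1 (2 * r + 1) / Pp (y ^ n) 0 (2 * r + 1)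
      = Pp (y ^ n) 1 (2 * r) / Pp (y ^ n) 0 (2 * r) * (1 - (y ^ n) ^ (2 * r + 1)) := by
    rw [Pp, Pp, prod_range_succ, prod_range_succ, ← Pp, ← Pp, if_pos (by omega), if_neg (by omega)]
    ring
  have h2 := h1.mul (Rel.one.sub ((hy.pow n).pow (2 * r + 1)))
  rw [← e3, ← e2] at h2
  refine ⟨U x (iv x) n (2 * (n * r + k)) * (algebraMap ℚ _ (gam r) * rt (x ^ n - 1) r) *
    -∑ i ∈ range (2 * r + 1), (x ^ n) ^ i, ?_⟩
  convert rel_hh hy hK hn he hu _ h2 using 1
  rw [e2, ← geom_sum_mul_neg]; ring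

end

theorem gam_c (k : ℕ) : 1 / (4 : ℚ) ^ k * ((2 * k).choose k : ℚ) = gam k := by
  induction k with
  | zero => simp [gam]
  | succ k ih =>
    have h := congrArg (Nat.cast : ℕ → ℚ) (Nat.succ_mul_centralBinom_succ k)
    rw [Nat.centralBinom, Nat.centralBinom] at h
    push_cast at h
    have h1 : (k + 1 : ℚ) ≠ 0 := by positivity
    rw [gam, prod_range_succ, ← gam, ← ih, (eq_div_iff h1).2 ((mul_comm _ _).trans h)]
    field_simp
    ring

end Pool.Agent.H.MP_40e425_nt
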